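import Pool.Agent.Q51.ZC.Stm2

/-!
# Project ZC (helper51), JOB GOODAT (helper38)

Almost all primes are good.
-/

set_option autoImplicit false

namespace Pool.Agent.Q38.ZC

open Polynomial Finset
open Pool.Agent.Q51.ZC

/-- Bezout for `f` and its derivative over the integers -/
lemma bezout (f : ℤ[X]) (hf : Irreducible (f.map (Int.castRingHom ℚ))) :
    ∃ (U V : ℤ[X]) (N : ℤ), N ≠ 0 ∧ U * f + V * derivative f = C N := by
  have hsep : (f.map (Int.castRingHom ℚ)).Separable := hf.separable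
  obtain ⟨u, v, huv⟩ := hsep
  rw [derivative_map] at huv
  obtain ⟨b1, hb1, h1⟩ := IsLocalization.integerNormalization_spec (nonZeroDivisors ℤ) u
  obtain ⟨b2, hb2, h2⟩ := IsLocalization.integerNormalization_spec (nonZeroDivisors ℤ) v
  have e : (algebraMap ℤ ℚ) = Int.castRingHom ℚ := rfl
  rw [e] at h1 h2
  refine ⟨C b2 * IsLocalization.integerNormalization (nonZeroDivisors ℤ) u,
    C b1 * IsLocalization.integerNormalization (nonZeroDivisors ℤ) v, b1 * b2,
    mul_ne_zero (nonZeroDivisors.ne_zero hb1) (nonZeroDivisors.ne_zero hb2), ?_⟩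
  apply map_injective (Int.castRingHom ℚ) (RingHom.injective_int (Int.castRingHom ℚ))
  rw [Polynomial.map_add, Polynomial.map_mul, Polynomial.map_mul, Polynomial.map_mul,
    Polynomial.map_mul, h1, h2, map_C, map_C, map_C, zsmul_eq_mul, zsmul_eq_mul, map_mul, C_mul]
  have e1 : ∀ b : ℤ, (b : ℚ[X]) = C (Int.castRingHom ℚ b) := fun b => by simp
  rw [e1, e1]
  linear_combination (C (Int.castRingHom ℚ b1) * C (Int.castRingHom ℚ b2)) * huv

section l

variable {l : ℕ} [Fact l.Prime]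

lemma norm_int (z : ℤ) : ‖(z : Om l)‖ = ‖(z : ℚ_[l])‖ := by
  rw [← norm_ext (l := l) (z : ℚ_[l]), map_intCast]

lemma norm_int_le (z : ℤ) : ‖(z : Om l)‖ ≤ 1 := by
  rw [norm_int]; exact Padic.norm_int_le_one z

lemma norm_int_eq (z : ℤ) (h : ¬ (l : ℤ) ∣ z) : ‖(z : Om l)‖ = 1 := by
  refine le_antisymm (norm_int_le z) ?_
  by_contra h1
  rw [not_le, norm_int] at h1
  exact h (Padic.norm_intCast_lt_one_iff.mp h1)

lemma norm_add_le' (x y : Om l) : ‖x + y‖ ≤ max ‖x‖ ‖y‖ := PadicAlgCl.isNonarchimedean l x y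

lemma norm_sub_le' (x y : Om l) : ‖x - y‖ ≤ max ‖x‖ ‖y‖ := by
  have h := norm_add_le' x (-y)
  rwa [norm_neg, ← sub_eq_add_neg] at h

/-- bound for the values of integral polynomials -/
lemma norm_sum_le' {ι : Type*} (s : Finset ι) (a : ι → Om l) (B : ℝ) (hB : 0 ≤ B)
    (h : ∀ i ∈ s, ‖a i‖ ≤ B) : ‖∑ i ∈ s, a i‖ ≤ B := by
  classical
  induction s using Finset.induction_on with
  | empty => simpa using hB
  | insert j s hj ih =>
    rw [sum_insert hj]
    exact (norm_add_le' _ _).trans (max_le (h j (mem_insert_self _ _))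
      (ih fun k hk => h k (mem_insert_of_mem hk)))

lemma norm_eval_le (g : ℤ[X]) (ρ : Om l) (m : ℕ) (hg : g.natDegree < m + 1) (hρ : 1 ≤ ‖ρ‖) :
    ‖(g.map (Int.castRingHom (Om l))).eval ρ‖ ≤ ‖ρ‖ ^ m := by
  rw [eval_map, eval₂_eq_sum_range' _ hg]
  refine norm_sum_le' _ _ _ (by positivity) fun i hi => ?_
  rw [norm_mul, norm_pow]
  have hi' : i ≤ m := Nat.lt_succ_iff.mp (mem_range.mp hi)
  calc ‖(Int.castRingHom (Om l)) (g.coeff i)‖ * ‖ρ‖ ^ i ≤ 1 * ‖ρ‖ ^ m := by
        apply mul_le_mul (norm_int_le _) (pow_le_pow_right₀ hρ hi') (by positivity) zero_le_one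
    _ = ‖ρ‖ ^ m := one_mul _

lemma norm_eval_le_one (g : ℤ[X]) (ρ : Om l) (hρ : ‖ρ‖ ≤ 1) :
    ‖(g.map (Int.castRingHom (Om l))).eval ρ‖ ≤ 1 := by
  rw [eval_map, eval₂_eq_sum_range]
  refine norm_sum_le' _ _ _ zero_le_one fun i hi => ?_
  rw [norm_mul, norm_pow]
  calc ‖(Int.castRingHom (Om l)) (g.coeff i)‖ * ‖ρ‖ ^ i ≤ 1 * 1 := by
        apply mul_le_mul (norm_int_le _) (pow_le_one₀ (norm_nonneg _) hρ) (by positivity) zero_le_one
    _ = 1 := one_mul _

end l

/-- JOB GOODAT of project ZC -/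
theorem goodat : S_GOODAT := by
  classical
  intro f hf
  obtain ⟨U, V, N, hN, hUV⟩ := bezout f hf
  have hf0 : f ≠ 0 := by
    rintro rfl
    rw [Polynomial.map_zero] at hf
    exact hf.ne_zero rfl
  have hlc : f.leadingCoeff ≠ 0 := leadingCoeff_ne_zero.mpr hf0
  have hdeg : 0 < f.natDegree := by
    have h1 := hf.natDegree_pos
    rwa [natDegree_map_eq_of_injective (RingHom.injective_int _)] at h1
  refine ⟨(f.leadingCoeff * N).natAbs, Int.natAbs_ne_zero.mpr (mul_ne_zero hlc hN), ?_⟩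
  intro l hl hlB
  rw [← Int.natCast_dvd] at hlB
  have hl1 : ¬ (l : ℤ) ∣ f.leadingCoeff := fun h => hlB (h.mul_right _)
  have hl2 : ¬ (l : ℤ) ∣ N := fun h => hlB (h.mul_left _)
  set F : (Om l)[X] := f.map (Int.castRingHom (Om l)) with hF
  have hinj : Function.Injective (Int.castRingHom (Om l)) := RingHom.injective_int _
  have hFd : F.natDegree = f.natDegree := natDegree_map_eq_of_injective hinj f
  have hFl : F.leadingCoeff = (f.leadingCoeff : Om l) := by
    rw [hF, leadingCoeff_map_of_injective hinj]; rfl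
  have hF0 : F ≠ 0 := by
    intro h0
    exact hf0 (map_injective _ hinj (by rw [← hF, h0, Polynomial.map_zero]))
  -- separability
  have hFs : F.Separable := by
    have h1 := congrArg (fun g : ℤ[X] => g.map (Int.castRingHom (Om l))) hUV
    simp only [Polynomial.map_add, Polynomial.map_mul, map_C, ← derivative_map] at h1
    rw [← hF] at h1
    have hN' : (Int.castRingHom (Om l) N) ≠ 0 := by
      intro h0
      exact hN (hinj (by rw [h0, map_zero]))
    refine ⟨C (Int.castRingHom (Om l) N)⁻¹ * U.map (Int.castRingHom (Om l)),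
      C (Int.castRingHom (Om l) N)⁻¹ * V.map (Int.castRingHom (Om l)), ?_⟩
    calc _ = C (Int.castRingHom (Om l) N)⁻¹ * (U.map (Int.castRingHom (Om l)) * F +
        V.map (Int.castRingHom (Om l)) * derivative F) := by ring
      _ = 1 := by rw [h1, ← C_mul, inv_mul_cancel₀ hN', C_1]
  have hsplit : F.Splits := IsAlgClosed.splits F
  have hcard : Multiset.card F.roots = F.natDegree := (splits_iff_card_roots.mp hsplit)
  have hnodup : F.roots.Nodup := nodup_roots hFs
  have hRt : (Rt f l).card = f.natDegree := by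
    unfold Rt
    rw [← hF, Multiset.toFinset_card_of_nodup hnodup, hcard, hFd]
  have hmem : ∀ ρ, ρ ∈ Rt f l ↔ F.eval ρ = 0 := fun ρ => mem_Rt hf0 ρ
  have hnlc : ‖(f.leadingCoeff : Om l)‖ = 1 := norm_int_eq _ hl1
  have hint : ∀ ρ ∈ Rt f l, ‖ρ‖ ≤ 1 := by
    intro ρ hρ
    by_contra h1
    rw [not_le] at h1
    have h2 := (hmem ρ).mp hρ
    have h3 : f = f.eraseLead + monomial f.natDegree f.leadingCoeff := (eraseLead_add_monomial_natDegree_leadingCoeff f).symm
    have h4 : (f.eraseLead.map (Int.castRingHom (Om l))).eval ρ + (f.leadingCoeff : Om l) * ρ ^ f.natDegree = 0 := by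
      rw [← h2, hF]
      conv_rhs => rw [h3]
      rw [Polynomial.map_add, eval_add, map_monomial, eval_monomial]
      rfl
    have h5 : ‖(f.leadingCoeff : Om l) * ρ ^ f.natDegree‖ = ‖ρ‖ ^ f.natDegree := by
      rw [norm_mul, norm_pow, hnlc, one_mul]
    have h6 : ‖(f.eraseLead.map (Int.castRingHom (Om l))).eval ρ‖ ≤ ‖ρ‖ ^ (f.natDegree - 1) := by
      refine norm_eval_le _ _ _ ?_ h1.le
      have := eraseLead_natDegree_le f
      omega
    have h7 : (f.eraseLead.map (Int.castRingHom (Om l))).eval ρ = -((f.leadingCoeff : Om l) * ρ ^ f.natDegree) :=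
      eq_neg_of_add_eq_zero_left h4
    rw [h7, norm_neg, h5] at h6
    have h8 : ‖ρ‖ ^ (f.natDegree - 1) < ‖ρ‖ ^ f.natDegree := pow_lt_pow_right₀ h1 (by omega)
    exact absurd h6 (not_le.mpr h8)
  refine ⟨hl1, hRt, hint, ?_⟩
  intro ρ hρ ρ' hρ' hne
  -- the derivative
  have hprod : F = C (f.leadingCoeff : Om l) * ∏ r ∈ Rt f l, (X - C r) := by
    have h1 := hsplit.eq_prod_roots
    rw [hFl] at h1
    rw [h1]
    congr 1
    unfold Rt
    rw [← hF]
    rw [Finset.prod, Multiset.toFinset_val, Multiset.dedup_eq_self.mpr hnodup]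
  have hder : (derivative F).eval ρ = (f.leadingCoeff : Om l) * ∏ r ∈ (Rt f l).erase ρ, (ρ - r) := by
    rw [hprod, derivative_C_mul, eval_mul, eval_C, ← Finset.mul_prod_erase _ _ hρ, derivative_mul,
      derivative_sub, derivative_X, derivative_C, sub_zero, one_mul, eval_add, eval_mul, eval_sub,
      eval_X, eval_C, sub_self, zero_mul, add_zero, eval_prod]
    simp only [eval_sub, eval_X, eval_C]
  have hBez : (V.map (Int.castRingHom (Om l))).eval ρ * (derivative F).eval ρ = (N : Om l) := by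
    have h1 := congrArg (fun g : ℤ[X] => (g.map (Int.castRingHom (Om l))).eval ρ) hUV
    simp only [Polynomial.map_add, Polynomial.map_mul, map_C, ← derivative_map, eval_add, eval_mul,
      eval_C] at h1
    rw [← hF, (hmem ρ).mp hρ, mul_zero, zero_add] at h1
    exact h1
  have hge : 1 ≤ ‖(derivative F).eval ρ‖ := by
    have h1 : ‖(N : Om l)‖ = 1 := norm_int_eq _ hl2
    rw [← hBez, norm_mul] at h1
    have h2 := norm_eval_le_one V ρ (hint ρ hρ)
    nlinarith [norm_nonneg ((V.map (Int.castRingHom (Om l))).eval ρ), norm_nonneg ((derivative F).eval ρ)]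
  rw [hder, norm_mul, hnlc, one_mul, norm_prod] at hge
  have hle : ∀ r ∈ Rt f l, ‖ρ - r‖ ≤ 1 := fun r hr =>
    (norm_sub_le' _ _).trans (max_le (hint ρ hρ) (hint r hr))
  refine le_antisymm (hle ρ' hρ') ?_
  have hm : ρ' ∈ (Rt f l).erase ρ := mem_erase.mpr ⟨hne.symm, hρ'⟩
  rw [← Finset.mul_prod_erase _ _ hm] at hge
  have h9 : ∏ r ∈ ((Rt f l).erase ρ).erase ρ', ‖ρ - r‖ ≤ 1 :=
    Finset.prod_le_one (fun r _ => norm_nonneg _)
      (fun r hr => hle r (mem_of_mem_erase (mem_of_mem_erase hr)))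
  have h10 : 0 ≤ ∏ r ∈ ((Rt f l).erase ρ).erase ρ', ‖ρ - r‖ := Finset.prod_nonneg fun r _ => norm_nonneg _
  nlinarith [norm_nonneg (ρ - ρ')]

end Pool.Agent.Q38.ZC
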